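import Mathlib
import Pool.Agent.H592.TR.Stm

/-!
# TR T5 (subtask 11139, owner helper592): Euler product for the constant `CC`
-/

set_option autoImplicit false

open Finset Filter Topology

namespace Pool.Agent.H947.TR

open Pool.Agent.H592.TR

/-- `∏_{p ∣ d} 1/(p+1)` -/
noncomputable def gg (d : ℕ) : ℝ := ∏ p ∈ d.primeFactors, 1 / ((p : ℝ) + 1)

/-- the multiplicative function -/
noncomputable def ff (d : ℕ) : ℝ :=
  if Odd d then ((ArithmeticFunction.moebius d : ℤ) : ℝ) * gg d ^ 2 else 0

theorem gg_nonneg (d : ℕ) : 0 ≤ gg d := prod_nonneg fun p _ => by positivity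

theorem gg_le {d : ℕ} (hd : Squarefree d) : gg d ≤ 1 / (d : ℝ) := by
  have h0 : d ≠ 0 := hd.ne_zero
  have h1 : (d : ℝ) = ∏ p ∈ d.primeFactors, (p : ℝ) := by
    conv_lhs => rw [← Nat.prod_primeFactors_of_squarefree hd]
    push_cast
    rfl
  rw [h1, one_div, ← prod_inv_distrib]
  refine prod_le_prod (fun p _ => by positivity) fun p hp => ?_
  have hp0 : 0 < (p : ℝ) := by exact_mod_cast (Nat.prime_of_mem_primeFactors hp).pos
  rw [one_div]
  exact inv_anti₀ hp0 (by linarith)

theorem norm_ff_le (d : ℕ) : ‖ff d‖ ≤ 1 / (d : ℝ) ^ 2 := by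
  unfold ff
  split_ifs with h
  · by_cases hs : Squarefree d
    · rw [norm_mul]
      have h1 : ‖((ArithmeticFunction.moebius d : ℤ) : ℝ)‖ ≤ 1 := by
        rw [Real.norm_eq_abs]
        exact_mod_cast ArithmeticFunction.abs_moebius_le_one
      have h2 : ‖gg d ^ 2‖ ≤ 1 / (d : ℝ) ^ 2 := by
        rw [Real.norm_eq_abs, abs_of_nonneg (sq_nonneg _)]
        have := pow_le_pow_left₀ (gg_nonneg d) (gg_le hs) 2
        rwa [div_pow, one_pow] at this
      calc ‖((ArithmeticFunction.moebius d : ℤ) : ℝ)‖ * ‖gg d ^ 2‖ ≤ 1 * (1 / (d : ℝ) ^ 2) :=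
            mul_le_mul h1 h2 (norm_nonneg _) (by norm_num)
        _ = _ := one_mul _
    · rw [ArithmeticFunction.moebius_eq_zero_of_not_squarefree hs]
      simp only [Int.cast_zero, zero_mul, norm_zero]
      positivity
  · rw [norm_zero]
    positivity

theorem summable_ff : Summable fun d => ‖ff d‖ :=
  Summable.of_nonneg_of_le (fun _ => norm_nonneg _) norm_ff_le hasSum_zeta_two.summable

theorem ff_one : ff 1 = 1 := by
  unfold ff gg
  simp

theorem ff_zero : ff 0 = 0 := by
  unfold ff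
  simp

theorem ff_mul {m n : ℕ} (h : Nat.Coprime m n) : ff (m * n) = ff m * ff n := by
  unfold ff
  by_cases hm : Odd m
  · by_cases hn : Odd n
    · rw [if_pos hm, if_pos hn, if_pos (hm.mul hn),
        ArithmeticFunction.isMultiplicative_moebius.map_mul_of_coprime h]
      have h1 : gg (m * n) = gg m * gg n := by
        unfold gg
        rw [h.primeFactors_mul, prod_union h.disjoint_primeFactors]
      rw [h1]
      push_cast
      ring
    · rw [if_neg hn, if_neg (fun h' => hn (Nat.odd_mul.1 h').2), mul_zero]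
  · rw [if_neg hm, if_neg (fun h' => hm (Nat.odd_mul.1 h').1), zero_mul]

/-- Euler factor -/
noncomputable def EE (p : Nat.Primes) : ℝ := if (p : ℕ) = 2 then 1 else 1 - 1 / ((p : ℝ) + 1) ^ 2

theorem local_factor (p : Nat.Primes) : ∑' e, ff ((p : ℕ) ^ e) = EE p := by
  have hp := p.2
  have h2 : ∀ e ∉ range 2, ff ((p : ℕ) ^ e) = 0 := by
    intro e he
    rw [mem_range, not_lt] at he
    unfold ff
    split_ifs
    · rw [ArithmeticFunction.moebius_eq_zero_of_not_squarefree]
      · simp
      · intro hsq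
        have : e ≤ 1 := by
          by_contra hcon
          have h3 : (p : ℕ) * (p : ℕ) ∣ (p : ℕ) ^ e := by
            rw [← pow_two]
            exact pow_dvd_pow _ he
          exact hp.one_lt.ne' (Nat.isUnit_iff.1 (hsq _ h3))
        omega
    · rfl
  rw [tsum_eq_sum h2, sum_range_succ, sum_range_one, pow_zero, pow_one, ff_one]
  unfold EE
  split_ifs with h
  · have : ff (p : ℕ) = 0 := by
      unfold ff
      rw [if_neg]
      rw [h]
      decide
    rw [this, add_zero]
  · have hodd : Odd (p : ℕ) := hp.odd_of_ne_two h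
    unfold ff gg
    rw [if_pos hodd, ArithmeticFunction.moebius_apply_prime hp, hp.primeFactors, prod_singleton,
      div_pow, one_pow]
    push_cast
    ring

theorem hasProd_EE : HasProd EE (∑' n, ff n) := by
  have h := EulerProduct.eulerProduct_hasProd ff_one (fun {m n} hmn => ff_mul hmn) summable_ff ff_zero
  simp_rw [local_factor] at h
  exact h

/-- `1/n²` -/
noncomputable def sqz : ℕ →*₀ ℝ where
  toFun n := 1 / (n : ℝ) ^ 2
  map_zero' := by simp
  map_one' := by simp
  map_mul' m n := by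
    push_cast
    rw [mul_pow, one_div, one_div, one_div, mul_inv]

theorem hasProd_zeta : HasProd (fun p : Nat.Primes => 1 - 1 / (p : ℝ) ^ 2) (6 / Real.pi ^ 2) := by
  have hs : Summable (fun n => ‖sqz n‖) := by
    have h1 : (fun n => ‖sqz n‖) = fun n : ℕ => (1 : ℝ) / (n : ℝ) ^ 2 := by
      funext n
      change ‖1 / (n : ℝ) ^ 2‖ = _
      rw [Real.norm_eq_abs, abs_of_nonneg (by positivity)]
    rw [h1]
    exact hasSum_zeta_two.summable
  have h := EulerProduct.eulerProduct_completely_multiplicative_hasProd hs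
  have h2 : ∑' n, sqz n = Real.pi ^ 2 / 6 := hasSum_zeta_two.tsum_eq
  rw [h2] at h
  have h3 := h.inv₀ (by positivity)
  have e1 : (fun p : Nat.Primes => ((1 - sqz (p : ℕ))⁻¹)⁻¹) = fun p : Nat.Primes => 1 - 1 / (p : ℝ) ^ 2 := by
    funext p
    rw [inv_inv]
    rfl
  rw [e1, inv_div] at h3
  exact h3

theorem hasProd_two : HasProd (fun p : Nat.Primes => if (p : ℕ) = 2 then (8 / 9 : ℝ) else 1) (8 / 9) := by
  have h := hasProd_single (f := fun p : Nat.Primes => if (p : ℕ) = 2 then (8 / 9 : ℝ) else 1)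
    ⟨2, Nat.prime_two⟩ (by
      intro p hp
      rw [if_neg]
      intro h
      exact hp (Subtype.ext h))
  simpa using h

theorem factor (p : Nat.Primes) : EE p * (if (p : ℕ) = 2 then (8 / 9 : ℝ) else 1) *
    ((1 - 1 / (p : ℝ) ^ 2) * (1 - 1 / (p : ℝ) ^ 2)) = (1 - 1 / (p : ℝ)) ^ 2 * (1 + 2 / (p : ℝ)) := by
  have hp0 : (0 : ℝ) < (p : ℝ) := by exact_mod_cast p.2.pos
  unfold EE
  split_ifs with h
  · have h2 : (p : ℝ) = 2 := by exact_mod_cast h
    rw [h2]
    norm_num
  · field_simp
    ring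

theorem hasProd_GG : HasProd (fun p : Nat.Primes => (1 - 1 / (p : ℝ)) ^ 2 * (1 + 2 / (p : ℝ)))
    ((∑' n, ff n) * (8 / 9) * ((6 / Real.pi ^ 2) * (6 / Real.pi ^ 2))) := by
  have h := (hasProd_EE.mul hasProd_two).mul (hasProd_zeta.mul hasProd_zeta)
  refine h.congr_fun ?_
  intro p
  exact (factor p).symm

theorem CC_eq : CC = 44 / Real.pi ^ 4 * ∑' n, ff n := by
  unfold CC
  rw [hasProd_GG.tprod_eq]
  have := Real.pi_ne_zero
  field_simp
  ring

theorem S_pos : 0 < ∑' n, ff n := by
  have h1 : 6 / Real.pi ^ 2 ≤ ∑' n, ff n := by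
    refine le_of_tendsto_of_tendsto' hasProd_zeta hasProd_EE fun s => ?_
    refine prod_le_prod (fun p _ => ?_) fun p _ => ?_
    · have hp : (2 : ℝ) ≤ (p : ℝ) := by exact_mod_cast p.2.two_le
      have : 1 / (p : ℝ) ^ 2 ≤ 1 := by
        rw [div_le_one (by positivity)]
        nlinarith
      linarith
    · have hp : (2 : ℝ) ≤ (p : ℝ) := by exact_mod_cast p.2.two_le
      unfold EE
      split_ifs
      · have : 0 ≤ 1 / (p : ℝ) ^ 2 := by positivity
        linarith
      · have : 1 / ((p : ℝ) + 1) ^ 2 ≤ 1 / (p : ℝ) ^ 2 := by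
          apply one_div_le_one_div_of_le (by positivity)
          nlinarith
        linarith
  have h2 : 0 < 6 / Real.pi ^ 2 := by positivity
  linarith

theorem t5 : T5 := by
  refine ⟨?_, ?_⟩
  · rw [CC_eq]
    have := S_pos
    positivity
  · have h : HasSum ff (∑' n, ff n) := (summable_ff.of_norm).hasSum
    have h2 := h.mul_left (16 / Real.pi ^ 4)
    have e1 : 16 / Real.pi ^ 4 * ∑' n, ff n = 4 / 11 * CC := by
      rw [CC_eq]
      ring
    rw [e1] at h2
    refine h2.congr_fun ?_
    intro d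
    unfold ff kap gg
    split_ifs
    · have := Real.pi_ne_zero
      field_simp
      ring
    · ring

end Pool.Agent.H947.TR
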